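import Pool.Agent.helper28.EG.SpecP

/-!
# Project p2x: (MP_70a088_an, block EG of P2), module PSC: attraction outside a thin sector
-/

set_option autoImplicit false

open Complex Metric Set Filter Topology MeasureTheory
open WP (it)

noncomputable section

namespace EG

theorem PSC : PSC_stmt := by
  intro g p ν h hP κ hκ
  have hν := hP.nu
  have hν' : (1 : ℝ) ≤ ν := by exact_mod_cast hν
  have h0 := hP.h0
  set α := h p with hαd
  set t : ℂ → ℂ := PET_t α p ν with htd
  obtain ⟨η, hη, hη1, hη2⟩ : ∃ η : ℝ, 0 < η ∧ η ≤ 1 / 4 ∧ η ≤ κ / 16 :=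
    ⟨min (1 / 4) (κ / 16), lt_min (by norm_num) (by positivity), min_le_left _ _, min_le_right _ _⟩
  have c1 := PET_c1 hν hP.an h0 hP.eq
  have c1' : ∀ᶠ z in 𝓝[≠] p, ‖t (g z) - t z - ν‖ < η := by
    have := (Metric.tendsto_nhds.1 c1) η hη
    filter_upwards [this] with z hz
    rwa [dist_eq_norm] at hz
  obtain ⟨δ, hδ, hδ'⟩ := Metric.eventually_nhds_iff.1 (eventually_nhdsWithin_iff.1 c1')
  have hA : 0 < ‖α‖ := norm_pos_iff.2 h0
  obtain ⟨R₁, hR₁⟩ : ∃ R₁ : ℝ, R₁ = (‖α‖ * δ ^ ν)⁻¹ := ⟨_, rfl⟩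
  have hR₁0 : 0 < R₁ := by rw [hR₁]; positivity
  -- the estimate
  have K : ∀ z, R₁ < ‖t z‖ → ‖t (g z) - t z - ν‖ < η := by
    intro z hz
    have hzp : z ≠ p := by
      rintro rfl
      rw [htd, PET_norm, sub_self, norm_zero, zero_pow (by omega), mul_zero, inv_zero] at hz
      linarith
    have hz' : 0 < ‖z - p‖ := norm_pos_iff.2 (sub_ne_zero.2 hzp)
    have h1 : (‖α‖ * δ ^ ν)⁻¹ < (‖α‖ * ‖z - p‖ ^ ν)⁻¹ := by
      rw [← hR₁, ← PET_norm]
      exact hz
    have h2 : ‖α‖ * ‖z - p‖ ^ ν < ‖α‖ * δ ^ ν := (inv_lt_inv₀ (by positivity) (by positivity)).1 h1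
    have h3 : ‖z - p‖ ^ ν < δ ^ ν := lt_of_mul_lt_mul_left h2 hA.le
    have h4 : ‖z - p‖ < δ := lt_of_pow_lt_pow_left₀ ν hδ.le h3
    refine hδ' ?_ hzp
    rwa [dist_eq_norm]
  have K1 : ∀ z, R₁ < ‖t z‖ → (t z).re + 3 / 4 ≤ (t (g z)).re ∧ |(t z).im| - η ≤ |(t (g z)).im| := by
    intro z hz
    have h1 := K z hz
    have h2 : |(t (g z)).re - (t z).re - ν| ≤ η := by
      have h3 := (Complex.abs_re_le_norm (t (g z) - t z - ν)).trans h1.le
      simpa using h3
    have h4 : |(t (g z)).im - (t z).im| ≤ η := by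
      have h3 := (Complex.abs_im_le_norm (t (g z) - t z - ν)).trans h1.le
      simpa using h3
    have h5 := abs_le.1 h2
    refine ⟨by linarith, ?_⟩
    have h6 := abs_sub_abs_le_abs_sub (t z).im (t (g z)).im
    rw [abs_sub_comm] at h6
    linarith
  have K2 : ∀ z, R₁ < (t z).re → ∀ m : ℕ, (t z).re + m * (3 / 4) ≤ (t (g^[m] z)).re := by
    intro z hz m
    induction m with
    | zero => simp
    | succ m ih =>
      rw [Function.iterate_succ_apply']
      have h1 : R₁ < ‖t (g^[m] z)‖ := by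
        have : (0 : ℝ) ≤ m * (3 / 4) := by positivity
        have h2 := Complex.re_le_norm (t (g^[m] z))
        linarith
      have := (K1 _ h1).1
      push_cast
      linarith
  have K3 : ∀ z, R₁ < (t z).re → Tendsto (fun m => g^[m] z) atTop (𝓝 p) := by
    intro z hz
    refine PET_tend hν h0 ?_
    refine tendsto_atTop_mono (K2 z hz) ?_
    refine tendsto_atTop_add_const_left _ _ ?_
    exact tendsto_natCast_atTop_atTop.atTop_mul_const (by norm_num)
  refine ⟨R₁ + 2 * R₁ / κ + 1, by positivity, ?_⟩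
  intro z _ hz hor
  have hq : 0 < 2 * R₁ / κ := by positivity
  have hT1 : R₁ < ‖t z‖ := by linarith
  have hT2 : 1 < ‖t z‖ := by linarith
  have hT3 : R₁ < κ * ‖t z‖ / 2 := by
    have h1 : 2 * R₁ / κ < ‖t z‖ := by linarith
    rw [div_lt_iff₀ hκ] at h1
    linarith
  rcases hor with hor | hor
  · exact K3 z (by linarith)
  · -- the sector
    obtain ⟨M, hM⟩ : ∃ M : ℕ, M = ⌈4 * ‖t z‖⌉₊ := ⟨_, rfl⟩
    have hM1 : 4 * ‖t z‖ ≤ M := by rw [hM]; exact Nat.le_ceil _
    have hM2 : (M : ℝ) < 4 * ‖t z‖ + 1 := by rw [hM]; exact Nat.ceil_lt_add_one (by positivity)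
    have key : ∀ m ≤ M, (t z).re + m * (3 / 4) ≤ (t (g^[m] z)).re ∧ |(t z).im| - m * η ≤ |(t (g^[m] z)).im| := by
      intro m
      induction m with
      | zero => intro _; simp
      | succ m ih =>
        intro hm
        obtain ⟨i1, i2⟩ := ih (by omega)
        have hmM : (m : ℝ) ≤ M := by exact_mod_cast (by omega : m ≤ M)
        have h1 : (m : ℝ) * η ≤ κ * ‖t z‖ / 2 := by
          calc (m : ℝ) * η ≤ (4 * ‖t z‖ + 1) * (κ / 16) := by
                apply mul_le_mul (by linarith) hη2 hη.le (by positivity)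
            _ ≤ (5 * ‖t z‖) * (κ / 16) := by
                apply mul_le_mul_of_nonneg_right (by linarith) (by positivity)
            _ ≤ κ * ‖t z‖ / 2 := by nlinarith [mul_pos hκ (show 0 < ‖t z‖ by linarith)]
        have h2 : R₁ < ‖t (g^[m] z)‖ := by
          have h3 := Complex.abs_im_le_norm (t (g^[m] z))
          linarith
        have h3 := K1 _ h2
        rw [Function.iterate_succ_apply']
        push_cast
        constructor
        · linarith [h3.1]
        · linarith [h3.2]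
    have h1 := (key M le_rfl).1
    have h2 : -‖t z‖ ≤ (t z).re := (abs_le.1 (Complex.abs_re_le_norm (t z))).1
    have h3 : R₁ < (t (g^[M] z)).re := by
      nlinarith
    have h4 := K3 _ h3
    have h5 : (fun m => g^[m] (g^[M] z)) = fun m => g^[m + M] z := by
      funext m
      rw [Function.iterate_add_apply]
    rw [h5] at h4
    exact (tendsto_add_atTop_iff_nat M).1 h4

end EG
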